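import Mathlib

namespace Pool.Agent.Results.MP_06047d_an.Per

open Set

/-- `x` solves the recurrence of order `k`: `x (n+k) + x n` is the greatest element of
`{0, x (n+1), ..., x (n+k-1)}`. -/
def IsSol (k : ℕ) (x : ℕ → ℝ) : Prop :=
  ∀ n : ℕ, IsGreatest (insert 0 (x '' Ioo n (n + k))) (x (n + k) + x n)

/-- `N` is the least positive period of `x`. -/
def IsPer (x : ℕ → ℝ) (N : ℕ) : Prop :=
  IsLeast {M : ℕ | 1 ≤ M ∧ ∀ n, x (n + M) = x n} N

/-- The set on the right-hand side of the conjectured inclusion. -/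
def Allowed (k : ℕ) (N : ℕ) : Prop :=
  (N : ℤ) = 1 ∨ 2 * (N : ℤ) = 3 - (-1) ^ k ∨ (N : ℤ) = 2 * k ∨ (N : ℤ) = 3 * k - 1 ∨
    ∃ a b : ℕ, 1 ≤ a ∧ 1 ≤ b ∧ Nat.gcd a b = 1 ∧ (N : ℤ) = (3 * k - 2) * a + (3 * k - 1) * b

lemma fam : ∀ d j : ℕ, 2 ≤ d → 1 ≤ j → ∀ k : ℕ, k = d * (2 * j + 1) →
    5 ≤ k ∧ (∃ x : ℕ → ℝ, IsSol k x ∧ IsPer x (2 * d)) ∧
    2 * d ≠ 1 ∧ 2 * d ≠ 2 ∧ 2 * d ≠ 2 * k ∧ 2 * d + 1 ≠ 3 * k ∧
    ∀ a b : ℕ, 1 ≤ a → 1 ≤ b → ((2 * d : ℕ) : ℤ) ≠ (3 * (k : ℤ) - 2) * a + (3 * (k : ℤ) - 1) * b := by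
  intro d j hd hj k hk
  have hk3 : 3 * d ≤ k := by nlinarith
  have hd0 : 0 < 2 * d := by omega
  refine ⟨by omega, ⟨fun n => if n % (2 * d) < d then 0 else 1, ?_, ?_⟩, by omega, by omega,
    by omega, by omega, ?_⟩
  · intro n
    have hmod : (n + k) % (2 * d) = (n % (2 * d) + d) % (2 * d) := by
      have : n + k = n + d + (2 * d) * j := by rw [hk]; ring
      rw [this, Nat.add_mul_mod_self_left, Nat.mod_add_mod]
    have hlt := Nat.mod_lt n hd0
    have hsum : (if (n + k) % (2 * d) < d then (0 : ℝ) else 1) +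
        (if n % (2 * d) < d then (0 : ℝ) else 1) = 1 := by
      rw [hmod]
      by_cases h : n % (2 * d) < d
      · rw [Nat.mod_eq_of_lt (by omega), if_neg (by omega), if_pos h]; simp
      · have : (n % (2 * d) + d) % (2 * d) = n % (2 * d) - d := by
          rw [Nat.mod_eq_sub_mod (by omega), Nat.mod_eq_of_lt (by omega)]; omega
        rw [this, if_pos (by omega), if_neg h]; simp
    simp only []
    rw [hsum]
    constructor
    · right
      by_cases h : n % (2 * d) < d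
      · refine ⟨n + d, ⟨by omega, by omega⟩, ?_⟩
        have : (n + d) % (2 * d) = n % (2 * d) + d := by
          rw [← Nat.mod_add_mod, Nat.mod_eq_of_lt (by omega)]
        simp only []
        rw [this, if_neg (by omega)]
      · refine ⟨n + 2 * d, ⟨by omega, by omega⟩, ?_⟩
        simp only []
        rw [Nat.add_mod_right, if_neg h]
    · rintro y (rfl | ⟨m, -, rfl⟩)
      · norm_num
      · simp only []; split_ifs <;> norm_num
  · constructor
    · refine ⟨by omega, fun n => ?_⟩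
      simp only []
      rw [Nat.add_mod_right]
    · rintro M ⟨hM, h⟩
      by_contra hlt
      push Not at hlt
      by_cases hMd : M ≤ d
      · have := h (d - 1)
        simp only [] at this
        rw [Nat.mod_eq_of_lt (by omega), Nat.mod_eq_of_lt (by omega), if_neg (by omega),
          if_pos (by omega)] at this
        norm_num at this
      · have := h 0
        simp only [] at this
        rw [Nat.mod_eq_of_lt (by omega), Nat.mod_eq_of_lt (by omega), if_neg (by omega),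
          if_pos (by omega)] at this
        norm_num at this
  · intro a b ha hb h
    push_cast at h
    have h1 : (1 : ℤ) ≤ a := by exact_mod_cast ha
    have h2 : (1 : ℤ) ≤ b := by exact_mod_cast hb
    have h3 : 3 * (d : ℤ) ≤ k := by exact_mod_cast hk3
    have h4 : (2 : ℤ) ≤ d := by exact_mod_cast hd
    nlinarith

def tab : List ℤ := [5, -1, 1, 3, 1, -2, 4, 3, 1, 3, 6, 2, 3, 5, 3, -1, 3, 2, -2, 0, 4, 1, 2, 6, 6, 2, 5, 4, 0, -1, 3, -1, -1, 3, 4, 1, 5, 6, 3, 2, 5, 1, -1, 2, 3, -2, 2, 4, 2, 1, 6, 4, 2, 4]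

def z (n : ℕ) : ℤ := tab.getD (n % 54) 0

lemma z_rec : ∀ n < 54, z (n + 5) + z n =
    max (z (n + 4)) (max (z (n + 3)) (max (z (n + 2)) (max (z (n + 1)) 0))) := by
  decide +kernel

lemma z_min : ∀ M < 54, 1 ≤ M → ∃ n < 5, z (n + M) ≠ z n := by
  decide +kernel

lemma z_mod (n i : ℕ) : z (n + i) = z (n % 54 + i) := by
  unfold z; rw [Nat.mod_add_mod]

lemma five : ∃ x : ℕ → ℝ, IsSol 5 x ∧ IsPer x 54 := by
  refine ⟨fun n => (z n : ℝ), ?_, ⟨by norm_num, fun n => ?_⟩, ?_⟩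
  · intro n
    have h := z_rec (n % 54) (Nat.mod_lt _ (by norm_num))
    have h0 : z (n % 54) = z n := by simpa using (z_mod n 0).symm
    rw [← z_mod, ← z_mod, ← z_mod, ← z_mod, ← z_mod, h0] at h
    have h' : (z (n + 5) : ℝ) + z n = max (z (n + 4) : ℝ) (max (z (n + 3) : ℝ)
        (max (z (n + 2) : ℝ) (max (z (n + 1) : ℝ) 0))) := by exact_mod_cast h
    simp only []
    rw [h']
    have hs : insert (0 : ℝ) ((fun n => (z n : ℝ)) '' Ioo n (n + 5)) =
        insert (z (n + 4) : ℝ) (insert (z (n + 3) : ℝ) (insert (z (n + 2) : ℝ)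
          (insert (z (n + 1) : ℝ) {0}))) := by
      ext y
      simp only [mem_insert_iff, mem_image, mem_Ioo, mem_singleton_iff]
      constructor
      · rintro (rfl | ⟨m, ⟨h1, h2⟩, rfl⟩)
        · simp
        · have : m = n + 4 ∨ m = n + 3 ∨ m = n + 2 ∨ m = n + 1 := by omega
          rcases this with rfl | rfl | rfl | rfl <;> simp
      · rintro (rfl | rfl | rfl | rfl | rfl)
        · exact Or.inr ⟨n + 4, ⟨by omega, by omega⟩, rfl⟩
        · exact Or.inr ⟨n + 3, ⟨by omega, by omega⟩, rfl⟩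
        · exact Or.inr ⟨n + 2, ⟨by omega, by omega⟩, rfl⟩
        · exact Or.inr ⟨n + 1, ⟨by omega, by omega⟩, rfl⟩
        · exact Or.inl rfl
    rw [hs]
    exact (((isGreatest_singleton.insert _).insert _).insert _).insert _
  · simp only [z, Nat.add_mod_right]
  · rintro M ⟨hM, h⟩
    by_contra hlt
    obtain ⟨n, -, hn⟩ := z_min M (by omega) hM
    exact hn (Int.cast_injective (α := ℝ) (h n))

theorem result :
    (∃ x : ℕ → ℝ, IsSol 5 x ∧ IsPer x 54 ∧ ¬ Allowed 5 54) ∧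
    ∀ d j : ℕ, 2 ≤ d → 1 ≤ j → ∀ k : ℕ, k = d * (2 * j + 1) →
      5 ≤ k ∧ ∃ x : ℕ → ℝ, IsSol k x ∧ IsPer x (2 * d) ∧ ¬ Allowed k (2 * d) := by
  constructor
  · obtain ⟨x, h1, h2⟩ := five
    refine ⟨x, h1, h2, ?_⟩
    rintro (h | h | h | h | ⟨a, b, ha, hb, hg, h⟩)
    · norm_num at h
    · norm_num at h
    · norm_num at h
    · norm_num at h
    · have h' : 54 = 13 * a + 14 * b := by
        push_cast at h; omega
      have : a = 2 ∧ b = 2 := by omega
      obtain ⟨rfl, rfl⟩ := this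
      norm_num at hg
  · intro d j hd hj k hk
    obtain ⟨h5, ⟨x, h1, h2⟩, n1, n2, n3, n4, n5⟩ := fam d j hd hj k hk
    refine ⟨h5, x, h1, h2, ?_⟩
    rintro (h | h | h | h | ⟨a, b, ha, hb, -, h⟩)
    · omega
    · rcases neg_one_pow_eq_or ℤ k with h' | h' <;> rw [h'] at h <;> omega
    · omega
    · omega
    · exact n5 a b ha hb h

end Pool.Agent.Results.MP_06047d_an.Per
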